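import Pool.Agent.helper43.MS.Pd

open Bundle Manifold MeasureTheory Set Filter Topology
open scoped ContDiff ENNReal NNReal

namespace Pool.Agent.helper43.MS

section H
variable {n : ℕ} {N : Type*} [EMetricSpace N] [ChartedSpace (E n) N]
  [IsManifold 𝓘(ℝ, E n) ∞ N] [MeasurableSpace N] [BorelSpace N]
  [RiemannianBundle (fun q : N => TangentSpace 𝓘(ℝ, E n) q)]
  [IsContMDiffRiemannianBundle 𝓘(ℝ, E n) ∞ (E n) (fun q : N => TangentSpace 𝓘(ℝ, E n) q)]
  [IsRiemannianManifold 𝓘(ℝ, E n) N]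

omit [MeasurableSpace N] [BorelSpace N] [IsRiemannianManifold 𝓘(ℝ, E n) N] in
theorem H1.isContinuousRiemannianBundle :
    IsContinuousRiemannianBundle (E n) (fun q : N => TangentSpace 𝓘(ℝ, E n) q) := by
  obtain ⟨g, hg, h⟩ := IsContMDiffRiemannianBundle.exists_contMDiff (IB := 𝓘(ℝ, E n)) (n := ∞)
    (F := E n) (E := (fun q : N => TangentSpace 𝓘(ℝ, E n) q))
  exact ⟨g, hg.continuous, h⟩

omit [MeasurableSpace N] [BorelSpace N] [IsRiemannianManifold 𝓘(ℝ, E n) N] in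
theorem H1.bound_self (x : N) : ∃ C : ℝ≥0, ∀ᶠ y in 𝓝 x, ∀ v : TangentSpace 𝓘(ℝ, E n) y,
    enorm (E := E n) (mfderiv 𝓘(ℝ, E n) 𝓘(ℝ, E n) (chartAt (E n) x) y v : E n) ≤ C * ‖v‖ₑ := by
  have := H1.isContinuousRiemannianBundle (n := n) (N := N)
  obtain ⟨C, C_pos, hC⟩ := eventually_enorm_mfderiv_extChartAt_lt 𝓘(ℝ, E n) x
  refine ⟨C, ?_⟩
  filter_upwards [hC] with y hy v
  simp only [mfld_simps] at hy
  refine le_trans (ContinuousLinearMap.le_opENorm _ _) ?_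
  gcongr
  exact hy.le

omit [MeasurableSpace N] [BorelSpace N] [IsRiemannianManifold 𝓘(ℝ, E n) N] in
theorem H1.bound (q : N) {x : N} (hx : x ∈ (chartAt (E n) q).source) :
    ∃ C : ℝ≥0, ∀ᶠ y in 𝓝 x, ∀ v : TangentSpace 𝓘(ℝ, E n) y,
    enorm (E := E n) (mfderiv 𝓘(ℝ, E n) 𝓘(ℝ, E n) (chartAt (E n) q) y v : E n) ≤ C * ‖v‖ₑ := by
  obtain ⟨C, hC⟩ := H1.bound_self (n := n) x
  set T : E n → E n := chartAt (E n) q ∘ (chartAt (E n) x).symm with hT
  have hTs : ContDiffOn ℝ ∞ T ((chartAt (E n) x).symm ≫ₕ (chartAt (E n) q)).source := by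
    have := (contDiffGroupoid ∞ 𝓘(ℝ, E n)).compatible (chart_mem_atlas (E n) x)
      (chart_mem_atlas (E n) q)
    rw [contDiffGroupoid, mem_groupoid_of_pregroupoid] at this
    simpa [contDiffPregroupoid] using this.1
  have hopen : IsOpen ((chartAt (E n) x).symm ≫ₕ (chartAt (E n) q)).source :=
    ((chartAt (E n) x).symm ≫ₕ (chartAt (E n) q)).open_source
  have hmem : ∀ y ∈ (chartAt (E n) x).source ∩ (chartAt (E n) q).source,
      chartAt (E n) x y ∈ ((chartAt (E n) x).symm ≫ₕ (chartAt (E n) q)).source := by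
    intro y hy
    simp [hy.1, hy.2]
  have hxx : x ∈ (chartAt (E n) x).source ∩ (chartAt (E n) q).source :=
    ⟨mem_chart_source _ x, hx⟩
  have hcont : ContinuousAt (fun z => ‖fderiv ℝ T z‖) (chartAt (E n) x x) := by
    have h1 : ContDiffAt ℝ ∞ T (chartAt (E n) x x) :=
      (hTs _ (hmem x hxx)).contDiffAt (hopen.mem_nhds (hmem x hxx))
    exact (h1.fderiv_right (m := 0) (by norm_cast)).continuousAt.norm
  obtain ⟨C', hC'⟩ : ∃ C' : ℝ, ∀ᶠ z in 𝓝 (chartAt (E n) x x), ‖fderiv ℝ T z‖ < C' :=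
    ⟨_, hcont.eventually_lt_const (lt_add_one _)⟩
  have hC'' : ∀ᶠ y in 𝓝 x, ‖fderiv ℝ T (chartAt (E n) x y)‖ < C' :=
    ((chartAt (E n) x).continuousAt (mem_chart_source _ x)).eventually hC'
  refine ⟨C'.toNNReal * C, ?_⟩
  filter_upwards [hC, hC'', (chartAt (E n) x).open_source.mem_nhds hxx.1,
    (chartAt (E n) q).open_source.mem_nhds hx] with y h1 h2 h3 h4 v
  have hcomp : mfderiv 𝓘(ℝ, E n) 𝓘(ℝ, E n) (chartAt (E n) q) y v =
      fderiv ℝ T (chartAt (E n) x y)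
        (mfderiv 𝓘(ℝ, E n) 𝓘(ℝ, E n) (chartAt (E n) x) y v : E n) := by
    have e1 : (chartAt (E n) q : N → E n) =ᶠ[𝓝 y] T ∘ (chartAt (E n) x) := by
      filter_upwards [(chartAt (E n) x).open_source.mem_nhds h3] with z hz
      simp [hT, (chartAt (E n) x).left_inv hz]
    rw [e1.mfderiv_eq, mfderiv_comp (I' := 𝓘(ℝ, E n))]
    · rw [mfderiv_eq_fderiv]; rfl
    · have : ContDiffAt ℝ ∞ T (chartAt (E n) x y) :=
        (hTs _ (hmem y ⟨h3, h4⟩)).contDiffAt (hopen.mem_nhds (hmem y ⟨h3, h4⟩))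
      exact (this.differentiableAt (by simp)).mdifferentiableAt
    · exact mdifferentiableAt_atlas (chart_mem_atlas _ _) h3
  rw [hcomp]
  refine le_trans (ContinuousLinearMap.le_opENorm _ _) ?_
  rw [ENNReal.coe_mul, mul_assoc]
  gcongr
  · rw [← ofReal_norm]
    exact ENNReal.ofReal_le_ofReal h2.le
  · exact h1 v

omit [MeasurableSpace N] [BorelSpace N] in
/-- charts are locally Lipschitz -/
theorem H1.locLipschitz (q : N) {x : N} (hx : x ∈ (chartAt (E n) q).source) :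
    ∃ C : ℝ≥0, ∃ δ : ℝ≥0∞, 0 < δ ∧ Metric.eball x δ ⊆ (chartAt (E n) q).source ∧
      LipschitzOnWith C (chartAt (E n) q) (Metric.eball x δ) := by
  obtain ⟨C, hC⟩ := H1.bound q hx
  obtain ⟨δ, hδ, hball⟩ : ∃ δ : ℝ≥0∞, 0 < δ ∧ Metric.eball x δ ⊆ {y | (∀ v : TangentSpace 𝓘(ℝ, E n) y,
    enorm (E := E n) (mfderiv 𝓘(ℝ, E n) 𝓘(ℝ, E n) (chartAt (E n) q) y v : E n) ≤ C * ‖v‖ₑ) ∧
      y ∈ (chartAt (E n) q).source} := by
    have := hC.and ((chartAt (E n) q).open_source.mem_nhds hx)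
    exact EMetric.mem_nhds_iff.1 this
  have h3 : δ / 3 ≤ δ := ENNReal.div_le_of_le_mul (by
    calc δ = δ * 1 := (mul_one _).symm
      _ ≤ δ * 3 := by gcongr; norm_num)
  refine ⟨C, δ / 3, ENNReal.div_pos hδ.ne' (by simp), ?_, ?_⟩
  · exact fun y hy => (hball (Metric.eball_subset_eball h3 hy)).2
  intro y hy z hz
  have hy' : edist y x < δ / 3 := hy
  have hz' : edist z x < δ / 3 := hz
  have hyz : edist y z < δ / 3 + δ / 3 := by
    calc edist y z ≤ edist y x + edist x z := edist_triangle _ _ _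
      _ < δ / 3 + δ / 3 := by rw [edist_comm x z]; exact ENNReal.add_lt_add hy' hz'
  have hsum : δ / 3 + δ / 3 + δ / 3 = δ := ENNReal.add_thirds δ
  have key : ∀ r : ℝ≥0∞, edist y z < r → r ≤ δ / 3 + δ / 3 →
      edist (chartAt (E n) q y) (chartAt (E n) q z) ≤ C * r := by
    intro r hr hrδ
    rw [IsRiemannianManifold.out (I := 𝓘(ℝ, E n)) y z] at hr
    obtain ⟨γ, hγ0, hγ1, hγs, hγl⟩ := exists_lt_of_riemannianEDist_lt hr
    have hmem : ∀ t ∈ Icc (0 : ℝ) 1, γ t ∈ Metric.eball x δ := by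
      intro t ht
      have h1 : edist y (γ t) < r := by
        rw [IsRiemannianManifold.out (I := 𝓘(ℝ, E n)) y (γ t)]
        refine lt_of_le_of_lt (riemannianEDist_le_pathELength
          (hγs.mono (Icc_subset_Icc_right ht.2)) hγ0 rfl ht.1) ?_
        exact lt_of_le_of_lt (pathELength_mono le_rfl ht.2) hγl
      have h2 : edist (γ t) x < r + δ / 3 := by
        calc edist (γ t) x ≤ edist (γ t) y + edist y x := edist_triangle _ _ _
          _ < r + δ / 3 := by rw [edist_comm (γ t) y]; exact ENNReal.add_lt_add h1 hy'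
      have : r + δ / 3 ≤ δ := by
        calc r + δ / 3 ≤ δ / 3 + δ / 3 + δ / 3 := by gcongr
          _ = δ := hsum
      exact lt_of_lt_of_le h2 this
    set γ' := (chartAt (E n) q) ∘ γ with hγ'
    have hCh : ContMDiffOn 𝓘(ℝ, E n) 𝓘(ℝ, E n) 1 (chartAt (E n) q) (chartAt (E n) q).source :=
      contMDiffOn_chart
    have hCM : ContMDiffOn 𝓘(ℝ, ℝ) 𝓘(ℝ, E n) 1 γ' (Icc 0 1) :=
      hCh.comp hγs (fun t ht => (hball (hmem t ht)).2)
    calc edist (chartAt (E n) q y) (chartAt (E n) q z) = ‖γ' 1 - γ' 0‖ₑ := by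
          rw [edist_comm, edist_eq_enorm_sub]; simp [hγ', hγ0, hγ1]
      _ ≤ ∫⁻ t' in Icc 0 1, ‖derivWithin γ' (Icc 0 1) t'‖ₑ := by
          apply enorm_sub_le_lintegral_derivWithin_Icc_of_contDiffOn_Icc _ zero_le_one
          rwa [← contMDiffOn_iff_contDiffOn]
      _ = ∫⁻ t' in Icc 0 1, enorm (E := E n)
            (mfderivWithin 𝓘(ℝ, ℝ) 𝓘(ℝ, E n) γ' (Icc 0 1) t' (1 : ℝ) : E n) := by
          simp_rw [← fderivWithin_derivWithin, mfderivWithin_eq_fderivWithin]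
          rfl
      _ ≤ ∫⁻ t' in Icc 0 1, C * ‖mfderivWithin 𝓘(ℝ, ℝ) 𝓘(ℝ, E n) γ (Icc 0 1) t' (1 : ℝ)‖ₑ := by
          apply setLIntegral_mono' measurableSet_Icc (fun t' ht' ↦ ?_)
          have hd : mfderivWithin 𝓘(ℝ, ℝ) 𝓘(ℝ, E n) γ' (Icc 0 1) t' =
              (mfderiv 𝓘(ℝ, E n) 𝓘(ℝ, E n) (chartAt (E n) q) (γ t')) ∘L
                (mfderivWithin 𝓘(ℝ, ℝ) 𝓘(ℝ, E n) γ (Icc 0 1) t') := by
            apply mfderiv_comp_mfderivWithin
            · exact mdifferentiableAt_atlas (chart_mem_atlas _ _) (hball (hmem t' ht')).2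
            · exact hγs.mdifferentiableOn one_ne_zero _ ht'
            · rw [uniqueMDiffWithinAt_iff_uniqueDiffWithinAt]
              exact uniqueDiffOn_Icc zero_lt_one _ ht'
          have hd1 : mfderivWithin 𝓘(ℝ, ℝ) 𝓘(ℝ, E n) γ' (Icc 0 1) t' (1 : ℝ) =
              (mfderiv 𝓘(ℝ, E n) 𝓘(ℝ, E n) (chartAt (E n) q) (γ t'))
                (mfderivWithin 𝓘(ℝ, ℝ) 𝓘(ℝ, E n) γ (Icc 0 1) t' (1 : ℝ)) := by rw [hd]; rfl
          rw [hd1]
          exact (hball (hmem t' ht')).1 _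
      _ = C * pathELength 𝓘(ℝ, E n) γ 0 1 := by
          rw [lintegral_const_mul' _ _ ENNReal.coe_ne_top,
              pathELength_eq_lintegral_mfderivWithin_Icc]
          rfl
      _ ≤ C * r := by gcongr
  refine ENNReal.le_mul_of_forall_lt (Or.inr hyz.ne_top) (Or.inl ENNReal.coe_ne_top)
    fun a ha b hb => ?_
  rcases le_total b (δ / 3 + δ / 3) with hbδ | hbδ
  · exact (key b hb hbδ).trans (by gcongr)
  · exact (key _ hyz le_rfl).trans (by gcongr)

/-- H1: charts preserve `H^m`-null sets. -/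
theorem hausdorff_null_chart {d : ℝ} (hd : 0 ≤ d) (q : N) {A : Set N}
    (hA : A ⊆ (chartAt (E n) q).source) (h0 : μH[d] A = 0) :
    μH[d] (chartAt (E n) q '' A) = 0 := by
  apply measure_null_of_locally_null
  rintro _ ⟨a, ha, rfl⟩
  obtain ⟨C, δ, hδ, hsub, hL⟩ := H1.locLipschitz q (hA ha)
  refine ⟨chartAt (E n) q '' (A ∩ Metric.eball a δ), ?_, ?_⟩
  · have hopen : IsOpen (chartAt (E n) q '' (Metric.eball a δ)) :=
      (chartAt (E n) q).isOpen_image_of_subset_source Metric.isOpen_eball hsub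
    have : chartAt (E n) q '' (Metric.eball a δ) ∈ 𝓝 (chartAt (E n) q a) :=
      hopen.mem_nhds (mem_image_of_mem _ (Metric.mem_eball_self hδ))
    filter_upwards [mem_nhdsWithin_of_mem_nhds this, self_mem_nhdsWithin] with z h1 h2
    obtain ⟨y, hy, rfl⟩ := h1
    obtain ⟨y', hy', he⟩ := h2
    have := (chartAt (E n) q).injOn (hA hy') (hsub hy) he
    subst this
    exact ⟨y', ⟨hy', hy⟩, rfl⟩
  · have h1 := (hL.mono (s := A ∩ Metric.eball a δ) inter_subset_right).hausdorffMeasure_image_le hd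
    have h2 : μH[d] (A ∩ Metric.eball a δ) = 0 := measure_mono_null inter_subset_left h0
    rw [h2, mul_zero] at h1
    exact le_antisymm h1 zero_le

end H

end Pool.Agent.helper43.MS
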