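import Pool.Agent.helper43.MS.G2
import Pool.Agent.helper97.MS.H1
import Pool.Agent.helper91.MS.N0

open Bundle Manifold MeasureTheory Set Filter Topology
open scoped ContDiff ENNReal NNReal

namespace Pool.Agent.helper43.MS

theorem hess_congr97 {n : ℕ} {g : E n → Matrix (Fin n) (Fin n) ℝ} {f f' : E n → ℝ} {y : E n}
    (h : f =ᶠ[𝓝 y] f') (v : E n) : hess g f y v = hess g f' y v := by
  unfold hess
  refine Finset.sum_congr rfl fun a _ => Finset.sum_congr rfl fun b _ => ?_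
  rw [pd_congr (pd_eventually_congr h)]
  congr 3
  exact Finset.sum_congr rfl fun c _ => by rw [pd_congr h]

section H
variable {n : ℕ} {N : Type*} [EMetricSpace N] [ChartedSpace (E n) N]
  [IsManifold 𝓘(ℝ, E n) ∞ N] [MeasurableSpace N] [BorelSpace N]
  [RiemannianBundle (fun q : N => TangentSpace 𝓘(ℝ, E n) q)]
  [IsContMDiffRiemannianBundle 𝓘(ℝ, E n) ∞ (E n) (fun q : N => TangentSpace 𝓘(ℝ, E n) q)]
  [IsRiemannianManifold 𝓘(ℝ, E n) N]

theorem H2.one {m : ℕ} (hm : 3 ≤ m) (q : N) {K : Set N} (hK : IsCompact K)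
    (hKq : K ⊆ (chartAt (E n) q).source) (h0 : μH[(m : ℝ)] K = 0) {η : ℝ} (hη : 0 < η) :
    ∃ (w : N → ℝ) (U : Set N),
      ContMDiff 𝓘(ℝ, E n) 𝓘(ℝ, ℝ) ∞ w ∧
      tsupport w ⊆ (chartAt (E n) q).source ∧
      (∀ y, 0 ≤ w y ∧ w y ≤ η) ∧
      IsOpen U ∧ K ⊆ U ∧ U ⊆ (chartAt (E n) q).source ∧
      (∀ y ∈ (chartAt (E n) q).target, ∀ v : Fin m → E n,
        IsOrthoFamily (metricN q y) v →
        ∑ l, hess (metricN q) (w ∘ (chartAt (E n) q).symm) y (v l) ≤ η) ∧
      (∀ y ∈ (chartAt (E n) q).target, (chartAt (E n) q).symm y ∈ U →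
        ∀ v : Fin m → E n, IsOrthoFamily (metricN q y) v →
        ∑ l, hess (metricN q) (w ∘ (chartAt (E n) q).symm) y (v l) ≤ -2) := by
  classical
  set e := chartAt (E n) q with he
  have hK' : IsCompact (e '' K) := hK.image_of_continuousOn (e.continuousOn.mono hKq)
  have hK't : e '' K ⊆ e.target := by
    rintro _ ⟨y, hy, rfl⟩; exact e.map_source (hKq hy)
  have h0' : μH[(m : ℝ)] (e '' K) = 0 :=
    hausdorff_null_chart (Nat.cast_nonneg m) q hKq h0
  obtain ⟨w', U', hw's, hw'c, hw't, hw'b, hU'o, hKU', hU't, hh1, hh2⟩ :=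
    euclid_barrier hm e.open_target (metricN q) (metricN_contDiffOn q)
      (fun y hy => metricN_posDef q hy) hK' hK't h0' hη
  set w : N → ℝ := fun y => if y ∈ e.source then w' (e y) else 0 with hw
  have hev : ∀ y ∈ e.source, w =ᶠ[𝓝 y] fun z => w' (e z) := by
    intro y hy
    filter_upwards [e.open_source.mem_nhds hy] with z hz
    simp [hw, hz]
  have hev' : ∀ y ∈ e.target, (w ∘ e.symm) =ᶠ[𝓝 y] w' := by
    intro y hy
    filter_upwards [e.open_target.mem_nhds hy] with z hz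
    simp [hw, e.map_target hz, e.right_inv hz]
  have hts : tsupport w ⊆ e.source := by
    have hS : IsCompact (e.symm '' (tsupport w')) :=
      IsCompact.image_of_continuousOn hw'c (e.symm.continuousOn.mono hw't)
    have hsub : tsupport w ⊆ e.symm '' (tsupport w') := by
      refine closure_minimal ?_ hS.isClosed
      intro y hy
      have hy' : w y ≠ 0 := hy
      by_cases hys : y ∈ e.source
      · rw [(hev y hys).eq_of_nhds] at hy'
        exact ⟨e y, subset_tsupport _ hy', e.left_inv hys⟩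
      · simp [hw, hys] at hy'
    refine hsub.trans ?_
    rintro _ ⟨z, hz, rfl⟩
    exact e.map_target (hw't hz)
  refine ⟨w, e.source ∩ e ⁻¹' U', ?_, hts, ?_, e.isOpen_inter_preimage hU'o, ?_,
    inter_subset_left, ?_, ?_⟩
  · refine contMDiff_of_tsupport fun y hy => ?_
    have hys := hts hy
    have h1 : ContMDiffAt 𝓘(ℝ, E n) 𝓘(ℝ, E n) ∞ e y := contMDiffAt_of_mem_maximalAtlas
      (IsManifold.chart_mem_maximalAtlas q) hys
    have h2 : ContMDiffAt 𝓘(ℝ, E n) 𝓘(ℝ, ℝ) ∞ w' (e y) := hw's.contMDiff.contMDiffAt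
    exact (h2.comp y h1).congr_of_eventuallyEq (hev y hys)
  · intro y
    by_cases hys : y ∈ e.source
    · simp only [hw, hys, if_true]; exact hw'b _
    · simp only [hw, hys, if_false]; exact ⟨le_rfl, hη.le⟩
  · intro y hy
    exact ⟨hKq hy, hKU' (mem_image_of_mem _ hy)⟩
  · intro y hy v hv
    rw [Finset.sum_congr rfl fun l _ => hess_congr97 (hev' y hy) (v l)]
    exact hh1 y hy v hv
  · intro y hy hyU v hv
    rw [Finset.sum_congr rfl fun l _ => hess_congr97 (hev' y hy) (v l)]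
    refine hh2 y ?_ v hv
    have := hyU.2
    rwa [mem_preimage, e.right_inv hy] at this

/-- H2: barrier functions near a compact `H^m`-null set. -/
theorem barrier_N {m : ℕ} (hm : 3 ≤ m) {K : Set N} (hK : IsCompact K) (h0 : μH[(m : ℝ)] K = 0)
    {η : ℝ} (hη : 0 < η) :
    ∃ (k : ℕ) (w : Fin k → N → ℝ) (q : Fin k → N) (U : Fin k → Set N),
      (∀ i, ContMDiff 𝓘(ℝ, E n) 𝓘(ℝ, ℝ) ∞ (w i)) ∧
      (∀ i, tsupport (w i) ⊆ (chartAt (E n) (q i)).source) ∧
      (∀ i y, 0 ≤ w i y) ∧ (∀ y, ∑ i, w i y ≤ η) ∧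
      (∀ i, IsOpen (U i)) ∧ (K ⊆ ⋃ i, U i) ∧ (∀ i, U i ⊆ (chartAt (E n) (q i)).source) ∧
      (∀ i, ∀ y ∈ (chartAt (E n) (q i)).target, ∀ v : Fin m → E n,
        IsOrthoFamily (metricN (q i) y) v →
        ∑ l, hess (metricN (q i)) (w i ∘ (chartAt (E n) (q i)).symm) y (v l) ≤ η / (k + 1)) ∧
      (∀ i, ∀ y ∈ (chartAt (E n) (q i)).target, (chartAt (E n) (q i)).symm y ∈ U i →
        ∀ v : Fin m → E n, IsOrthoFamily (metricN (q i) y) v →
        ∑ l, hess (metricN (q i)) (w i ∘ (chartAt (E n) (q i)).symm) y (v l) ≤ -2) := by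
  classical
  have : LocallyCompactSpace N := ChartedSpace.locallyCompactSpace (E n) N
  have hnb : ∀ x : N, ∃ V : Set N, V ∈ 𝓝 x ∧ V ⊆ (chartAt (E n) x).source ∧ IsCompact V :=
    fun x => local_compact_nhds ((chartAt (E n) x).open_source.mem_nhds (mem_chart_source _ x))
  choose V hV1 hV2 hV3 using hnb
  obtain ⟨t, -, htK⟩ := hK.elim_nhds_subcover V (fun x _ => hV1 x)
  set k := t.card with hk
  set q : Fin k → N := fun i => (t.equivFin.symm i : N) with hq
  have hηk : 0 < η / (k + 1) := by positivity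
  have hone : ∀ i : Fin k, _ := fun i => H2.one (n := n) hm (q i) (K := K ∩ V (q i))
    (hK.inter (hV3 (q i))) (inter_subset_right.trans (hV2 (q i)))
    (measure_mono_null inter_subset_left h0) hηk
  choose w U h1 h2 h3 h4 h5 h6 h7 h8 using hone
  refine ⟨k, w, q, U, h1, h2, fun i y => (h3 i y).1, ?_, h4, ?_, h6, h7, h8⟩
  · intro y
    calc ∑ i, w i y ≤ ∑ _i : Fin k, η / (k + 1) := Finset.sum_le_sum fun i _ => (h3 i y).2
      _ = k * (η / (k + 1)) := by simp
      _ ≤ η := by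
        rw [mul_div_assoc', div_le_iff₀ (by positivity)]
        nlinarith
  · intro x hx
    obtain ⟨z, hz, hxz⟩ := mem_iUnion₂.1 (htK hx)
    refine mem_iUnion.2 ⟨t.equivFin ⟨z, hz⟩, h5 _ ⟨hx, ?_⟩⟩
    simpa [hq] using hxz

end H

end Pool.Agent.helper43.MS
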