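import Pool.Agent.helper43.MS.Pd

open Bundle Manifold MeasureTheory Set Filter Topology
open scoped ContDiff ENNReal NNReal

namespace Pool.Agent.helper43.MS

variable {m n : ℕ}

theorem W.contDiffAt_det {k : ℕ} {G : E m → Matrix (Fin k) (Fin k) ℝ} {x : E m}
    {l : WithTop ℕ∞} (hG : ∀ i j, ContDiffAt ℝ l (fun z => G z i j) x) :
    ContDiffAt ℝ l (fun z => (G z).det) x := by
  simp only [Matrix.det_apply]
  refine ContDiffAt.sum fun σ _ => ?_
  refine ContDiffAt.const_smul _ ?_
  exact contDiffAt_prod fun i _ => hG _ _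

theorem W.contDiffAt_inv {k : ℕ} {G : E m → Matrix (Fin k) (Fin k) ℝ} {x : E m}
    {l : WithTop ℕ∞} (hG : ∀ i j, ContDiffAt ℝ l (fun z => G z i j) x) (hdet : (G x).det ≠ 0)
    (i j : Fin k) : ContDiffAt ℝ l (fun z => (G z)⁻¹ i j) x := by
  have h1 : (fun z => (G z)⁻¹ i j) = fun z => (G z).det⁻¹ * (G z).adjugate i j := by
    funext z
    rw [Matrix.inv_def, Ring.inverse_eq_inv']
    rfl
  rw [h1]
  refine ((W.contDiffAt_det hG).inv hdet).mul ?_
  simp only [Matrix.adjugate_apply]
  refine W.contDiffAt_det fun a b => ?_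
  by_cases hb : a = j
  · subst hb
    simp only [Matrix.updateRow_self]
    exact contDiffAt_const
  · simp only [Matrix.updateRow_ne hb]
    exact hG a b

/-- the flux is differentiable -/
theorem W.flux_diff {G : E m → Matrix (Fin m) (Fin m) ℝ} {x : E m}
    (hG : ∀ i j, ContDiffAt ℝ 1 (fun z => G z i j) x) (hdet : 0 < (G x).det)
    {f : E m → ℝ} (hf : ContDiffAt ℝ 2 f x) (i : Fin m) :
    DifferentiableAt ℝ (fun z => √((G z).det) * ∑ j, (G z)⁻¹ i j * pd j f z) x := by
  have h1 : ContDiffAt ℝ 1 (fun z => √((G z).det)) x :=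
    (W.contDiffAt_det hG).sqrt hdet.ne'
  have h2 : ContDiffAt ℝ 1 (fun z => ∑ j, (G z)⁻¹ i j * pd j f z) x :=
    ContDiffAt.sum fun j _ => (W.contDiffAt_inv hG hdet.ne' i j).mul
      (contDiffAt_pd hf (by norm_num))
  exact (h1.mul h2).differentiableAt (by norm_num)

theorem laplace_congr97 {G : E m → Matrix (Fin m) (Fin m) ℝ} {x : E m} {f g : E m → ℝ}
    (h : f =ᶠ[𝓝 x] g) : laplace G f x = laplace G g x := by
  unfold laplace
  congr 1
  refine Finset.sum_congr rfl fun i _ => pd_congr ?_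
  have h1 : ∀ j : Fin m, pd j f =ᶠ[𝓝 x] pd j g := fun j => pd_eventually_congr h
  filter_upwards [eventually_all.2 h1] with z hz
  simp only [hz]

theorem laplace_zero97 {G : E m → Matrix (Fin m) (Fin m) ℝ} {x : E m} :
    laplace G (fun _ => 0) x = 0 := by
  unfold laplace
  simp

theorem laplace_add97 {G : E m → Matrix (Fin m) (Fin m) ℝ} {x : E m}
    (hG : ∀ i j, ContDiffAt ℝ 1 (fun z => G z i j) x) (hdet : 0 < (G x).det)
    {f g : E m → ℝ} (hf : ContDiffAt ℝ 2 f x) (hg : ContDiffAt ℝ 2 g x) :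
    laplace G (fun z => f z + g z) x = laplace G f x + laplace G g x := by
  unfold laplace
  rw [← mul_add, ← Finset.sum_add_distrib]
  congr 1
  refine Finset.sum_congr rfl fun i _ => ?_
  rw [← pd_add (W.flux_diff hG hdet hf i) (W.flux_diff hG hdet hg i)]
  apply pd_congr
  have h1 : ∀ᶠ z in 𝓝 x, DifferentiableAt ℝ f z := by
    filter_upwards [hf.eventually (by norm_num)] with z hz using hz.differentiableAt (by norm_num)
  have h2 : ∀ᶠ z in 𝓝 x, DifferentiableAt ℝ g z := by
    filter_upwards [hg.eventually (by norm_num)] with z hz using hz.differentiableAt (by norm_num)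
  filter_upwards [h1, h2] with z h1 h2
  rw [← mul_add, ← Finset.sum_add_distrib]
  congr 1
  exact Finset.sum_congr rfl fun j _ => by rw [pd_add h1 h2, mul_add]

theorem laplace_const_mul97 {G : E m → Matrix (Fin m) (Fin m) ℝ} {x : E m}
    (hG : ∀ i j, ContDiffAt ℝ 1 (fun z => G z i j) x) (hdet : 0 < (G x).det)
    {f : E m → ℝ} (hf : ContDiffAt ℝ 2 f x) (c : ℝ) :
    laplace G (fun z => c * f z) x = c * laplace G f x := by
  unfold laplace
  rw [mul_left_comm c]
  congr 1
  rw [Finset.mul_sum]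
  refine Finset.sum_congr rfl fun i _ => ?_
  rw [← pd_const_mul c (W.flux_diff hG hdet hf i)]
  apply pd_congr
  have h1 : ∀ᶠ z in 𝓝 x, DifferentiableAt ℝ f z := by
    filter_upwards [hf.eventually (by norm_num)] with z hz using hz.differentiableAt (by norm_num)
  filter_upwards [h1] with z h1
  rw [mul_left_comm c]
  congr 1
  rw [Finset.mul_sum]
  exact Finset.sum_congr rfl fun j _ => by rw [pd_const_mul c h1]; ring

theorem laplace_sum97 {ι : Type*} (s : Finset ι) {G : E m → Matrix (Fin m) (Fin m) ℝ} {x : E m}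
    (hG : ∀ i j, ContDiffAt ℝ 1 (fun z => G z i j) x) (hdet : 0 < (G x).det)
    {f : ι → E m → ℝ} (hf : ∀ i ∈ s, ContDiffAt ℝ 2 (f i) x) :
    laplace G (fun z => ∑ i ∈ s, f i z) x = ∑ i ∈ s, laplace G (f i) x := by
  classical
  induction s using Finset.induction_on with
  | empty => simp [laplace_zero97]
  | insert a s ha ih =>
    simp only [Finset.sum_insert ha]
    rw [laplace_add97 hG hdet (hf a (Finset.mem_insert_self _ _))
      (ContDiffAt.sum fun i hi => hf i (Finset.mem_insert_of_mem hi)),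
      ih fun i hi => hf i (Finset.mem_insert_of_mem hi)]

/-- Hessian of `ψ ∘ f`. -/
theorem hess_comp_real97 {g : E n → Matrix (Fin n) (Fin n) ℝ} {f : E n → ℝ} {y : E n}
    (hf : ContDiffAt ℝ 2 f y) {ψ ψ' : ℝ → ℝ} {ψ'' : ℝ} (h1 : ∀ t, HasDerivAt ψ (ψ' t) t)
    (h2 : HasDerivAt ψ' ψ'' (f y)) (v : E n) :
    hess g (fun z => ψ (f z)) y v = ψ' (f y) * hess g f y v + ψ'' * (∑ a, v a * pd a f y) ^ 2 := by
  have hd : ∀ᶠ z in 𝓝 y, DifferentiableAt ℝ f z := by
    filter_upwards [hf.eventually (by norm_num)] with z hz using hz.differentiableAt (by norm_num)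
  have hfy : DifferentiableAt ℝ f y := hf.differentiableAt (by norm_num)
  have e1 : ∀ c : Fin n, pd c (fun z => ψ (f z)) =ᶠ[𝓝 y] fun z => ψ' (f z) * pd c f z := by
    intro c
    filter_upwards [hd] with z hz using pd_comp_real (h1 _) hz
  have e2 : ∀ a b : Fin n, pd a (pd b fun z => ψ (f z)) y =
      ψ' (f y) * pd a (pd b f) y + pd b f y * (ψ'' * pd a f y) := by
    intro a b
    rw [pd_congr (e1 b), pd_mul, pd_comp_real h2 hfy]
    · exact (h2.differentiableAt).comp y hfy
    · exact (contDiffAt_pd (k := 1) hf (by norm_num)).differentiableAt (by norm_num)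
  have hsq : ψ'' * (∑ a, v a * pd a f y) ^ 2 =
      ∑ a, ∑ b, ψ'' * (pd b f y * pd a f y) * v a * v b := by
    rw [sq, Finset.sum_mul_sum, Finset.mul_sum]
    refine Finset.sum_congr rfl fun a _ => ?_
    rw [Finset.mul_sum]
    refine Finset.sum_congr rfl fun b _ => ?_
    ring
  rw [hsq]
  unfold hess
  rw [Finset.mul_sum, ← Finset.sum_add_distrib]
  refine Finset.sum_congr rfl fun a _ => ?_
  rw [Finset.mul_sum, ← Finset.sum_add_distrib]
  refine Finset.sum_congr rfl fun b _ => ?_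
  rw [e2]
  have e3 : ∑ c, christoffel g y c a b * pd c (fun z => ψ (f z)) y =
      ψ' (f y) * ∑ c, christoffel g y c a b * pd c f y := by
    rw [Finset.mul_sum]
    refine Finset.sum_congr rfl fun c _ => ?_
    rw [(e1 c).eq_of_nhds]; ring
  rw [e3]; ring

end Pool.Agent.helper43.MS
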