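import Pool.Agent.helper76.MS.F
import Pool.Agent.helper97.MS.H2
import Pool.Agent.helper97.MS.W1
import Pool.Agent.helper91.MS.M0

open Bundle Manifold MeasureTheory Set Filter Topology
open scoped ContDiff ENNReal NNReal

namespace Pool.Agent.helper43.MS

/-! ### the limit set -/

theorem W.cocompact_countablyGenerated (M : Type*) [TopologicalSpace M]
    [WeaklyLocallyCompactSpace M] [SigmaCompactSpace M] :
    (cocompact M).IsCountablyGenerated := by
  set K := CompactExhaustion.choice M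
  refine isCountablyGenerated_of_seq ⟨fun i => (K i)ᶜ, le_antisymm ?_ ?_⟩
  · refine le_iInf fun i => le_principal_iff.2 (K.isCompact i).compl_mem_cocompact
  · intro S hS
    obtain ⟨t, ht, htS⟩ := mem_cocompact.1 hS
    obtain ⟨i, hi⟩ := K.exists_superset_of_isCompact ht
    exact mem_of_superset (mem_iInf_of_mem i (mem_principal_self _))
      ((compl_subset_compl.2 hi).trans htS)

theorem W.mem_limitSet {M N : Type*} [TopologicalSpace M] [TopologicalSpace N]
    [FirstCountableTopology N] [WeaklyLocallyCompactSpace M] [SigmaCompactSpace M]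
    {φ : M → N} {x : N} (h : ClusterPt x (map φ (cocompact M))) : x ∈ limitSet φ := by
  have := W.cocompact_countablyGenerated M
  obtain ⟨p, h1, h2⟩ := (show MapClusterPt x (cocompact M) φ from h).exists_seq_tendsto
  exact ⟨p, h2, h1⟩

/-- the compactness of the exceptional set -/
theorem W.isCompact_exc {M N : Type*} [TopologicalSpace M] [TopologicalSpace N]
    {φ : M → N} (hφ : Continuous φ) {D A V : Set N} (hDc : IsCompact (closure D)) (hA : IsClosed A)
    (hV : IsOpen V) (hφD : ∀ p, φ p ∈ D)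
    (h : ∀ x ∈ closure D, x ∈ A → ClusterPt x (map φ (cocompact M)) → x ∈ V) :
    IsCompact {p | φ p ∈ A ∧ φ p ∉ V} := by
  have hcl : IsClosed {p | φ p ∈ A ∧ φ p ∉ V} :=
    (hA.preimage hφ).inter (hV.isClosed_compl.preimage hφ)
  set S := {p | φ p ∈ A ∧ φ p ∉ V} with hS
  by_cases hne : (cocompact M ⊓ 𝓟 S).NeBot
  · exfalso
    have h1 : map φ (cocompact M ⊓ 𝓟 S) ≤ 𝓟 (closure D) := by
      exact le_principal_iff.2 (mem_map.2 (univ_mem' fun p => subset_closure (hφD p)))
    obtain ⟨x, hx, hxc⟩ := hDc h1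
    have h2 : ClusterPt x (map φ (cocompact M)) := hxc.mono (map_mono inf_le_left)
    have h3 : x ∈ A ∩ Vᶜ := by
      have h4 : IsClosed (A ∩ Vᶜ) := hA.inter hV.isClosed_compl
      rw [← h4.closure_eq, mem_closure_iff_clusterPt]
      refine hxc.mono (le_principal_iff.2 ?_)
      have : S ∈ cocompact M ⊓ 𝓟 S := mem_inf_of_right (mem_principal_self _)
      exact mem_of_superset this fun p hp => hp
    exact h3.2 (h x hx h3.1 h2)
  · rw [not_neBot, ← disjoint_iff, disjoint_principal_right] at hne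
    obtain ⟨t, ht, htS⟩ := mem_cocompact.1 hne
    exact ht.of_isClosed_subset hcl (compl_subset_compl.1 htS)

section W
variable {m n : ℕ} {M : Type*} [TopologicalSpace M] [T2Space M] [SecondCountableTopology M]
  [ChartedSpace (E m) M] [IsManifold 𝓘(ℝ, E m) ∞ M] [MeasurableSpace M] [BorelSpace M]
  {N : Type*} [EMetricSpace N] [ChartedSpace (E n) N]
  [IsManifold 𝓘(ℝ, E n) ∞ N] [MeasurableSpace N] [BorelSpace N]
  [RiemannianBundle (fun q : N => TangentSpace 𝓘(ℝ, E n) q)]
  [IsContMDiffRiemannianBundle 𝓘(ℝ, E n) ∞ (E n) (fun q : N => TangentSpace 𝓘(ℝ, E n) q)]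
  [IsRiemannianManifold 𝓘(ℝ, E n) N]

omit [T2Space M] [SecondCountableTopology M] [MeasurableSpace M] [BorelSpace M]
  [MeasurableSpace N] [BorelSpace N] [IsRiemannianManifold 𝓘(ℝ, E n) N] in
/-- the Laplacian of `f2 ∘ φ` -/
theorem W.laplace_f2 {φ : M → N} (h : IsImm m n φ) (hmin : IsMinimal m n φ) {D : Set N}
    (hφD : ∀ p, φ p ∈ D) {F : N → ℝ} (hF : ContMDiff 𝓘(ℝ, E n) 𝓘(ℝ, ℝ) 2 F) {c : ℝ}
    (hFD : SumEigGE n m F D c) {a δ : ℝ} (ha : 0 ≤ a) (hδ : 0 < δ)
    {p : M} {x : E m} (hx : x ∈ (chartAt (E m) p).target) :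
    laplace (metricM m n φ p) (fun z => (fun y => a * (- F y) + δ * (1 - Real.exp (F y / δ)))
      (φ ((chartAt (E m) p).symm z))) x ≤
      - (a * c) - c * Real.exp (F (φ ((chartAt (E m) p).symm x)) / δ) := by
  set y0 := φ ((chartAt (E m) p).symm x) with hy0
  set q := y0 with hq
  have hqs : φ ((chartAt (E m) p).symm x) ∈ (chartAt (E n) q).source := mem_chart_source _ _
  set f2 : N → ℝ := fun y => a * (- F y) + δ * (1 - Real.exp (F y / δ)) with hf2
  have hf2s : ContMDiff 𝓘(ℝ, E n) 𝓘(ℝ, ℝ) 2 f2 := by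
    have : ContMDiff 𝓘(ℝ, ℝ) 𝓘(ℝ, ℝ) 2
        (fun t : ℝ => a * (-t) + δ * (1 - Real.exp (t / δ))) := by
      refine ContDiff.contMDiff ?_
      fun_prop
    exact this.comp hF
  obtain ⟨v, hv, hlap⟩ := laplace_comp h hmin hx hqs (f := f2) hf2s.contMDiffAt
  rw [hlap]
  set y := locRep m n φ p q x with hy
  have hyt : y ∈ (chartAt (E n) q).target := (chartAt (E n) q).map_source hqs
  have hys : (chartAt (E n) q).symm y = y0 := (chartAt (E n) q).left_inv hqs
  have hFc : ContDiffAt ℝ 2 (F ∘ (chartAt (E n) q).symm) y := by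
    have h1 : ContMDiffAt 𝓘(ℝ, E n) 𝓘(ℝ, E n) 2 (chartAt (E n) q).symm y :=
      ((contMDiffOn_chart_symm (I := 𝓘(ℝ, E n)) (n := ∞) (x := q)).contMDiffAt
        ((chartAt (E n) q).open_target.mem_nhds hyt)).of_le (by norm_cast)
    exact (hF.contMDiffAt.comp y h1).contDiffAt
  set F' := F ∘ (chartAt (E n) q).symm with hF'
  have hFy : F' y = F y0 := by simp [hF', hys]
  have hh : ∀ k, hess (metricN q) (f2 ∘ (chartAt (E n) q).symm) y (v k) ≤
      (- a - Real.exp (F' y / δ)) * hess (metricN q) F' y (v k) := by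
    intro k
    have h1 : ∀ t : ℝ, HasDerivAt (fun t : ℝ => a * (-t) + δ * (1 - Real.exp (t / δ)))
        (- a - Real.exp (t / δ)) t := by
      intro t
      have e1 : HasDerivAt (fun t : ℝ => Real.exp (t / δ)) (Real.exp (t / δ) * (1 / δ)) t :=
        ((hasDerivAt_id t).div_const δ).exp
      have e2 := ((hasDerivAt_id t).neg.const_mul a).add ((e1.const_sub 1).const_mul δ)
      refine e2.congr_deriv ?_
      field_simp
      ring
    have h2 : HasDerivAt (fun t : ℝ => - a - Real.exp (t / δ))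
        (- (Real.exp (F' y / δ) * (1 / δ))) (F' y) := by
      have e1 : HasDerivAt (fun t : ℝ => Real.exp (t / δ)) (Real.exp (F' y / δ) * (1 / δ)) (F' y) :=
        ((hasDerivAt_id (F' y)).div_const δ).exp
      exact e1.const_sub (-a)
    have e := hess_comp_real97 (g := metricN q) hFc h1 h2 (v k)
    have e' : hess (metricN q) (f2 ∘ (chartAt (E n) q).symm) y (v k) = _ := e
    rw [e']
    have : 0 ≤ Real.exp (F' y / δ) * (1 / δ) * (∑ a, v k a * pd a F' y) ^ 2 := by positivity
    nlinarith [this]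
  have hsum : c ≤ ∑ k, hess (metricN q) F' y (v k) := hFD q y hyt (by rw [hys]; exact hφD _) v hv
  calc ∑ k, hess (metricN q) (f2 ∘ (chartAt (E n) q).symm) y (v k)
      ≤ ∑ k, (- a - Real.exp (F' y / δ)) * hess (metricN q) F' y (v k) :=
        Finset.sum_le_sum fun k _ => hh k
    _ = (- a - Real.exp (F' y / δ)) * ∑ k, hess (metricN q) F' y (v k) := by
        rw [Finset.mul_sum]
    _ ≤ (- a - Real.exp (F' y / δ)) * c := by
        have : 0 < Real.exp (F' y / δ) := Real.exp_pos _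
        exact mul_le_mul_of_nonpos_left hsum (by linarith)
    _ = - (a * c) - c * Real.exp (F y0 / δ) := by rw [hFy]; ring

omit [T2Space M] [SecondCountableTopology M] [MeasurableSpace M] [BorelSpace M]
  [MeasurableSpace N] [BorelSpace N] [IsRiemannianManifold 𝓘(ℝ, E n) N] in
/-- the Laplacian of `w_i ∘ φ` -/
theorem W.laplace_wi {φ : M → N} (h : IsImm m n φ) (hmin : IsMinimal m n φ)
    {w : N → ℝ} {q : N} (hw : ContMDiff 𝓘(ℝ, E n) 𝓘(ℝ, ℝ) ∞ w)
    (hts : tsupport w ⊆ (chartAt (E n) q).source) {T : Set N}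
    {C : ℝ} (hC : 0 ≤ C ∨ T ⊆ (chartAt (E n) q).source)
    (hh : ∀ y ∈ (chartAt (E n) q).target, (chartAt (E n) q).symm y ∈ T → ∀ v : Fin m → E n,
        IsOrthoFamily (metricN q y) v →
        ∑ l, hess (metricN q) (w ∘ (chartAt (E n) q).symm) y (v l) ≤ C)
    {p : M} {x : E m} (hx : x ∈ (chartAt (E m) p).target)
    (hT : φ ((chartAt (E m) p).symm x) ∈ T) :
    laplace (metricM m n φ p) (fun z => w (φ ((chartAt (E m) p).symm z))) x ≤ C := by
  by_cases hq : φ ((chartAt (E m) p).symm x) ∈ (chartAt (E n) q).source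
  · obtain ⟨v, hv, hlap⟩ := laplace_comp h hmin hx hq (f := w)
      (hw.contMDiffAt.of_le (by norm_cast))
    rw [hlap]
    refine hh _ ((chartAt (E n) q).map_source hq) ?_ v hv
    rwa [(chartAt (E n) q).left_inv hq]
  · have hC0 : 0 ≤ C := by
      rcases hC with hC | hC
      · exact hC
      · exact absurd (hC hT) hq
    have hnt : φ ((chartAt (E m) p).symm x) ∉ tsupport w := fun h' => hq (hts h')
    have hev : w =ᶠ[𝓝 (φ ((chartAt (E m) p).symm x))] 0 := notMem_tsupport_iff_eventuallyEq.1 hnt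
    have hcont : ContinuousAt (fun z => φ ((chartAt (E m) p).symm z)) x :=
      h.1.continuous.continuousAt.comp
        ((chartAt (E m) p).continuousAt_symm hx)
    have hev' : (fun z => w (φ ((chartAt (E m) p).symm z))) =ᶠ[𝓝 x] fun _ => 0 :=
      hcont.eventually hev
    rw [laplace_congr97 hev', laplace_zero97]
    exact hC0

theorem exists_barrier (hm : 3 ≤ m) {φ : M → N} (h : IsImm m n φ)
    (hmin : IsMinimal m n φ) {D : Set N} (hD : IsOpen D)
    (hDc : IsCompact (closure D)) (hconv : IsUniformlyConvex n m D)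
    (hφD : ∀ p, φ p ∈ D) (hlim : μH[(m : ℝ)] (limitSet φ ∩ D) = 0) {ε : ℝ} (hε : 0 < ε) :
    ∃ (w b : M → ℝ) (K : Set M), ContMDiff 𝓘(ℝ, E m) 𝓘(ℝ, ℝ) 2 w ∧
      (∀ p, 0 < w p ∧ w p ≤ ε) ∧ IsCompact K ∧ Measurable b ∧ (∀ p, 0 ≤ b p ∧ b p ≤ 1) ∧
      (∀ p, p ∉ K → b p = 1) ∧
      (∀ (p : M) (x : E m), x ∈ (chartAt (E m) p).target →
        laplace (metricM m n φ p) (w ∘ (chartAt (E m) p).symm) x ≤
          - b ((chartAt (E m) p).symm x)) := by
  classical
  have hlcM : LocallyCompactSpace M := ChartedSpace.locallyCompactSpace (E m) M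
  have hφc : Continuous φ := h.1.continuous
  obtain ⟨F, hF, hFneg, hFfr, c, hc, hFD⟩ := hconv
  have hFc : Continuous F := hF.continuous
  -- a bound for `-F` on `D`
  obtain ⟨B, hB⟩ : ∃ B : ℝ, ∀ x ∈ D, - F x ≤ B := by
    obtain ⟨B, hB⟩ := (hDc.image (hFc.neg)).bddAbove
    exact ⟨B, fun x hx => hB (mem_image_of_mem _ (subset_closure hx))⟩
  set B' := max B 0 with hB'
  have hB'0 : 0 ≤ B' := le_max_right _ _
  have hB'D : ∀ x ∈ D, - F x ≤ B' := fun x hx => (hB x hx).trans (le_max_left _ _)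
  set e := Real.exp 1 with he
  have he0 : 0 < e := Real.exp_pos _
  set A0 := max 1 (e / c) with hA0
  have hA01 : 1 ≤ A0 := le_max_left _ _
  have hA0e : e / c ≤ A0 := le_max_right _ _
  have hA0pos : 0 < A0 := lt_of_lt_of_le one_pos hA01
  set δ := ε / (2 * A0) with hδdef
  have hδ : 0 < δ := by positivity
  set η := min 1 (ε / (2 * A0 * (1 + B' / c))) with hηdef
  have hη : 0 < η := lt_min one_pos (by positivity)
  have hη1 : η ≤ 1 := min_le_left _ _
  have hη2 : A0 * (η * (1 + B' / c)) ≤ ε / 2 := by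
    have h1 : η ≤ ε / (2 * A0 * (1 + B' / c)) := min_le_right _ _
    have h2 : 0 < 1 + B' / c := by positivity
    calc A0 * (η * (1 + B' / c)) ≤ A0 * (ε / (2 * A0 * (1 + B' / c)) * (1 + B' / c)) := by gcongr
      _ = ε / 2 := by field_simp
  -- the exceptional set
  set K0 : Set N := {x | ClusterPt x (map φ (cocompact M))} ∩ ({x | F x ≤ -δ} ∩ closure D)
    with hK0
  have hK0c : IsCompact K0 := by
    refine (hDc.inter_left (isClosed_le hFc continuous_const)).inter_left ?_
    exact isClosed_setOfPred_clusterPt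
  have hK0sub : K0 ⊆ limitSet φ ∩ D := by
    rintro x ⟨h1, h2, h3⟩
    refine ⟨W.mem_limitSet h1, ?_⟩
    by_contra hxD
    have hxf : x ∈ frontier D := ⟨h3, by rwa [hD.interior_eq]⟩
    have := hFfr x hxf
    have h2' : F x ≤ -δ := h2
    linarith
  obtain ⟨k, w, q, U, hw1, hw2, hw3, hw4, hw5, hw6, hw7, hw8, hw9⟩ :=
    barrier_N (n := n) hm hK0c (measure_mono_null hK0sub hlim) hη
  set f2 : N → ℝ := fun y => (η / c) * (- F y) + δ * (1 - Real.exp (F y / δ)) with hf2
  have hf2s : ContMDiff 𝓘(ℝ, E n) 𝓘(ℝ, ℝ) 2 f2 := by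
    have : ContMDiff 𝓘(ℝ, ℝ) 𝓘(ℝ, ℝ) 2
        (fun t : ℝ => (η / c) * (-t) + δ * (1 - Real.exp (t / δ))) := by
      refine ContDiff.contMDiff ?_
      fun_prop
    exact this.comp hF
  have hφ2 : ContMDiff 𝓘(ℝ, E m) 𝓘(ℝ, E n) 2 φ := h.1.of_le (by norm_cast)
  have hwi2 : ∀ i, ContMDiff 𝓘(ℝ, E m) 𝓘(ℝ, ℝ) 2 (fun p => w i (φ p)) := fun i =>
    ((hw1 i).of_le (by norm_cast)).comp hφ2
  have hf2φ : ContMDiff 𝓘(ℝ, E m) 𝓘(ℝ, ℝ) 2 (fun p => f2 (φ p)) := hf2s.comp hφ2
  have hf2b : ∀ y ∈ D, 0 < f2 y ∧ f2 y ≤ η * (B' / c) + δ := by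
    intro y hy
    have h1 : F y < 0 := hFneg y hy
    have h2 : Real.exp (F y / δ) < 1 := by
      rw [Real.exp_lt_one_iff]
      exact div_neg_of_neg_of_pos h1 hδ
    have h3 : 0 < Real.exp (F y / δ) := Real.exp_pos _
    have h4 : 0 < η / c := by positivity
    have h5 : - F y ≤ B' := hB'D y hy
    constructor
    · have : 0 < δ * (1 - Real.exp (F y / δ)) := mul_pos hδ (by linarith)
      have : 0 < (η / c) * (- F y) := mul_pos h4 (by linarith)
      simp only [hf2]; linarith
    · have e1 : (η / c) * (- F y) ≤ (η / c) * B' := by gcongr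
      have e2 : δ * (1 - Real.exp (F y / δ)) ≤ δ * 1 := by gcongr; linarith
      have e3 : (η / c) * B' = η * (B' / c) := by ring
      simp only [hf2]; linarith
  set V : Set N := (⋃ i, U i) ∪ {y | -δ < F y} with hV
  have hVo : IsOpen V := (isOpen_iUnion hw5).union (isOpen_lt continuous_const hFc)
  refine ⟨fun p => A0 * ((∑ i, w i (φ p)) + f2 (φ p)), (φ ⁻¹' V).indicator 1,
    {p | φ p ∈ {x | F x ≤ -δ} ∧ φ p ∉ V}, ?_, ?_, ?_, ?_, ?_, ?_, ?_⟩
  · have h1 : ContMDiff 𝓘(ℝ, E m) 𝓘(ℝ, ℝ) 2 (fun p => ∑ i, w i (φ p)) :=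
      ContMDiff.sum fun i _ => hwi2 i
    have h2 : ContMDiff 𝓘(ℝ, E m) 𝓘(ℝ, ℝ) 2 (fun p => (∑ i, w i (φ p)) + f2 (φ p)) :=
      h1.add hf2φ
    exact contMDiff_const.mul h2
  · intro p
    have h1 : 0 ≤ ∑ i, w i (φ p) := Finset.sum_nonneg fun i _ => hw3 i _
    have h2 := hw4 (φ p)
    obtain ⟨h3, h4⟩ := hf2b (φ p) (hφD p)
    constructor
    · have : 0 < (∑ i, w i (φ p)) + f2 (φ p) := by linarith
      positivity
    · calc A0 * ((∑ i, w i (φ p)) + f2 (φ p)) ≤ A0 * (η + (η * (B' / c) + δ)) := by gcongr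
        _ = A0 * (η * (1 + B' / c)) + A0 * δ := by ring
        _ ≤ ε / 2 + A0 * δ := by gcongr
        _ = ε := by rw [hδdef]; field_simp; ring
  · refine W.isCompact_exc hφc hDc (isClosed_le hFc continuous_const) hVo hφD ?_
    intro x hx1 hx2 hx3
    exact Or.inl (hw6 ⟨hx3, hx2, hx1⟩)
  · exact measurable_one.indicator (hVo.preimage hφc).measurableSet
  · intro p
    by_cases hp : p ∈ φ ⁻¹' V
    · simp [indicator_of_mem hp]
    · simp [indicator_of_notMem hp]
  · intro p hp
    have : p ∈ φ ⁻¹' V := by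
      by_contra hpV
      apply hp
      refine ⟨?_, hpV⟩
      have : ¬ (-δ < F (φ p)) := fun h' => hpV (Or.inr h')
      exact not_lt.1 this
    simp [indicator_of_mem this]
  · intro p x hx
    have hG : ∀ i j, ContDiffAt ℝ 1 (fun z => metricM m n φ p z i j) x := fun i j =>
      ((metricM_contDiffOn h p i j).contDiffAt
        ((chartAt (E m) p).open_target.mem_nhds hx)).of_le (by norm_cast)
    have hdet : 0 < (metricM m n φ p x).det := (metricM_posDef h hx).det_pos
    have hsymm : ContMDiffAt 𝓘(ℝ, E m) 𝓘(ℝ, E m) 2 (chartAt (E m) p).symm x :=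
      ((contMDiffOn_chart_symm (I := 𝓘(ℝ, E m)) (n := ∞) (x := p)).contMDiffAt
        ((chartAt (E m) p).open_target.mem_nhds hx)).of_le (by norm_cast)
    have hc1 : ∀ i, ContDiffAt ℝ 2 (fun z => w i (φ ((chartAt (E m) p).symm z))) x := fun i =>
      ((hwi2 i).contMDiffAt.comp x hsymm).contDiffAt
    have hc2 : ContDiffAt ℝ 2 (fun z => f2 (φ ((chartAt (E m) p).symm z))) x :=
      (hf2φ.contMDiffAt.comp x hsymm).contDiffAt
    have hc3 : ContDiffAt ℝ 2 (fun z => ∑ i, w i (φ ((chartAt (E m) p).symm z))) x :=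
      ContDiffAt.sum fun i _ => hc1 i
    have hlap : laplace (metricM m n φ p)
        ((fun p => A0 * ((∑ i, w i (φ p)) + f2 (φ p))) ∘ (chartAt (E m) p).symm) x =
        A0 * ((∑ i, laplace (metricM m n φ p)
          (fun z => w i (φ ((chartAt (E m) p).symm z))) x) +
          laplace (metricM m n φ p) (fun z => f2 (φ ((chartAt (E m) p).symm z))) x) := by
      rw [← laplace_sum97 Finset.univ hG hdet (fun i _ => hc1 i),
        ← laplace_add97 hG hdet hc3 hc2, ← laplace_const_mul97 hG hdet (hc3.add hc2)]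
      rfl
    rw [hlap]
    set y0 := φ ((chartAt (E m) p).symm x) with hy0
    have hL2 := W.laplace_f2 h hmin hφD hF hFD (a := η / c) (δ := δ) (by positivity) hδ hx
    rw [← hy0] at hL2
    have hηc : η / c * c = η := by field_simp
    rw [hηc] at hL2
    set L2 := laplace (metricM m n φ p) (fun z => f2 (φ ((chartAt (E m) p).symm z))) x with hL2def
    have hL2' : L2 ≤ -η - c * Real.exp (F y0 / δ) := hL2
    set L1 : Fin k → ℝ := fun i => laplace (metricM m n φ p)
          (fun z => w i (φ ((chartAt (E m) p).symm z))) x with hL1def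
    have hL1a : ∀ i, L1 i ≤ η / (k + 1) := fun i =>
      W.laplace_wi h hmin (hw1 i) (hw2 i) (T := univ) (Or.inl (by positivity))
        (fun y hy _ => hw8 i y hy) hx (mem_univ _)
    have hL1b : ∀ i, y0 ∈ U i → L1 i ≤ -2 := fun i hi =>
      W.laplace_wi h hmin (hw1 i) (hw2 i) (T := U i) (Or.inr (hw7 i)) (hw9 i) hx hi
    have hexp : 0 < Real.exp (F y0 / δ) := Real.exp_pos _
    have hsum : ∑ i, L1 i ≤ η := by
      calc ∑ i, L1 i ≤ ∑ _i : Fin k, η / (k + 1) := Finset.sum_le_sum fun i _ => hL1a i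
        _ = k * (η / (k + 1)) := by simp
        _ ≤ η := by
          rw [mul_div_assoc', div_le_iff₀ (by positivity)]
          nlinarith
    by_cases hyV : (chartAt (E m) p).symm x ∈ φ ⁻¹' V
    · rw [indicator_of_mem hyV, Pi.one_apply]
      rcases hyV with hyU | hyF
      · obtain ⟨i, hi⟩ := mem_iUnion.1 hyU
        have h1 : ∑ j, L1 j ≤ -2 + η := by
          rw [← Finset.add_sum_erase _ _ (Finset.mem_univ i)]
          have h2 := hL1b i hi
          have h3 : ∑ j ∈ Finset.univ.erase i, L1 j ≤ η := by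
            calc ∑ j ∈ Finset.univ.erase i, L1 j
                ≤ ∑ _j ∈ Finset.univ.erase i, η / (k + 1) := Finset.sum_le_sum fun j _ => hL1a j
              _ ≤ ∑ _j : Fin k, η / (k + 1) :=
                Finset.sum_le_sum_of_subset_of_nonneg (Finset.erase_subset _ _)
                  fun _ _ _ => by positivity
              _ = k * (η / (k + 1)) := by simp
              _ ≤ η := by
                rw [mul_div_assoc', div_le_iff₀ (by positivity)]
                nlinarith
          linarith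
        have h2 : 0 < c * Real.exp (F y0 / δ) := by positivity
        have h3 : (∑ j, L1 j) + L2 ≤ -1 := by linarith
        nlinarith
      · have hyF' : -δ < F y0 := hyF
        have h1 : (∑ j, L1 j) + L2 ≤ - (c * Real.exp (F y0 / δ)) := by linarith
        have h2 : 1 ≤ e * Real.exp (F y0 / δ) := by
          rw [he, ← Real.exp_add]
          apply Real.one_le_exp
          have : -1 < F y0 / δ := by rw [lt_div_iff₀ hδ]; linarith
          linarith
        have h3 : e ≤ A0 * c := by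
          rwa [div_le_iff₀ hc] at hA0e
        calc A0 * ((∑ j, L1 j) + L2) ≤ A0 * (- (c * Real.exp (F y0 / δ))) := by gcongr
          _ = - (A0 * c * Real.exp (F y0 / δ)) := by ring
          _ ≤ - (e * Real.exp (F y0 / δ)) := by gcongr
          _ ≤ -1 := by linarith
    · rw [indicator_of_notMem hyV, neg_zero]
      have h2 : 0 < c * Real.exp (F y0 / δ) := by positivity
      have h3 : (∑ j, L1 j) + L2 ≤ 0 := by linarith
      exact mul_nonpos_of_nonneg_of_nonpos hA0pos.le h3

end W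

end Pool.Agent.helper43.MS
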