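import Pool.Agent.helper75.MS.Defs
import Mathlib.RingTheory.WittVector.DiscreteValuationRing
import Mathlib.RingTheory.Polynomial.Eisenstein.IsIntegral

/-!
# MS project (MP_c072aa_co), module ws:M6a: a domain with a `p`-th root of unity and a
Teichmueller map
-/

namespace Pool.Agent.helper75.MS

open Finset Polynomial

theorem charZero_witt (p : ℕ) [Fact p.Prime] (K : Type) [Field K] [CharP K p] [PerfectRing K p] :
    CharZero (WittVector p K) := by
  have hp : p.Prime := Fact.out
  have hne : (p : WittVector p K) ≠ 0 := (WittVector.irreducible (p := p) (k := K)).ne_zero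
  refine charZero_of_inj_zero fun n hn => ?_
  induction n using Nat.strong_induction_on with
  | _ n ih =>
    by_contra h0
    have h1 : (n : K) = 0 := by
      have := congrArg (WittVector.constantCoeff (p := p) (R := K)) hn
      simpa using this
    rw [CharP.cast_eq_zero_iff K p] at h1
    obtain ⟨m, rfl⟩ := h1
    rw [Nat.cast_mul, mul_eq_zero] at hn
    have hm : (m : WittVector p K) = 0 := hn.resolve_left hne
    have hm0 : 0 < m := Nat.pos_of_ne_zero (by rintro rfl; simp at h0)
    have := ih m (by nlinarith [hp.two_le]) hm
    omega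

theorem irreducible_cyclotomic_witt (p : ℕ) [Fact p.Prime] (K : Type) [Field K] [CharP K p]
    [PerfectRing K p] : Irreducible (cyclotomic p (WittVector p K)) := by
  have hp : p.Prime := Fact.out
  have hirr : Irreducible (p : WittVector p K) := WittVector.irreducible (p := p) (k := K)
  have hprime : Prime (p : WittVector p K) := hirr.prime
  set P : Ideal (WittVector p K) := Ideal.span {(p : WittVector p K)} with hP
  have hPp : P.IsPrime := (Ideal.span_singleton_prime hprime.ne_zero).mpr hprime
  -- the shifted polynomial
  set f : (WittVector p K)[X] := (cyclotomic p (WittVector p K)).comp (X + 1) with hf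
  have hfmap : f = (((cyclotomic p ℤ).comp (X + 1)).map (Int.castRingHom (WittVector p K))) := by
    rw [hf, ← map_cyclotomic_int, Polynomial.map_comp]
    simp
  have hmonic : f.Monic := by
    have : (cyclotomic p (WittVector p K)).Monic := cyclotomic.monic _ _
    have hX : ((X : (WittVector p K)[X]) + 1) = X + C 1 := by simp
    rw [hf, hX]
    exact this.comp_X_add_C 1
  have hE := cyclotomic_comp_X_add_one_isEisensteinAt (p := p)
  have hdeg : f.natDegree = ((cyclotomic p ℤ).comp (X + 1)).natDegree := by
    rw [hfmap]
    have hm : ((cyclotomic p ℤ).comp (X + 1)).Monic := by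
      have hX : ((X : ℤ[X]) + 1) = X + C 1 := by simp
      rw [hX]
      exact (cyclotomic.monic p ℤ).comp_X_add_C 1
    exact hm.natDegree_map _
  have hcoeff0 : f.coeff 0 = (p : WittVector p K) := by
    rw [hf, Polynomial.coeff_zero_eq_eval_zero, Polynomial.eval_comp]
    simp [eval_one_cyclotomic_prime]
  have hfirr : Irreducible f := by
    refine IsEisensteinAt.irreducible (𝓟 := P) ?_ hPp hmonic.isPrimitive ?_
    · refine ⟨?_, ?_, ?_⟩
      · rw [hmonic.leadingCoeff]
        intro h
        exact hPp.ne_top ((Ideal.eq_top_iff_one _).mpr h)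
      · intro n hn
        rw [hdeg] at hn
        have h1 := hE.mem hn
        rw [Ideal.submodule_span_eq, Ideal.mem_span_singleton] at h1
        obtain ⟨c, hc⟩ := h1
        rw [hfmap, coeff_map, hc, hP, Ideal.mem_span_singleton]
        exact ⟨(c : WittVector p K), by simp⟩
      · rw [hcoeff0, hP, Ideal.span_singleton_pow, Ideal.mem_span_singleton]
        rintro ⟨c, hc⟩
        have h1 : (p : WittVector p K) * 1 = p * (p * c) := by
          rw [mul_one]
          calc (p : WittVector p K) = _ := hc
            _ = _ := by ring
        have h2 := mul_left_cancel₀ hprime.ne_zero h1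
        exact hprime.not_isUnit (IsUnit.of_mul_eq_one _ h2.symm)
    · rw [hdeg]
      have hX : ((X : ℤ[X]) + 1) = X + C 1 := by simp
      rw [hX, natDegree_comp, natDegree_X_add_C, mul_one, natDegree_cyclotomic,
        Nat.totient_prime hp]
      have := hp.two_le
      omega
  -- transfer by the automorphism X ↦ X + 1
  have hX : ((X : (WittVector p K)[X]) + 1) = X + C 1 := by simp
  rw [hf, hX] at hfirr
  have h2 := (MulEquiv.irreducible_iff (algEquivAevalXAddC (1 : WittVector p K))
    (x := cyclotomic p (WittVector p K)))
  rw [← h2]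
  have h3 : algEquivAevalXAddC (1 : WittVector p K) (cyclotomic p (WittVector p K))
      = (cyclotomic p (WittVector p K)).comp (X + C 1) := by
    rw [algEquivAevalXAddC_apply, aeval_def, comp, algebraMap_eq]
  rw [h3]
  exact hfirr

/-- ws:M6a -/
theorem exists_teich (p : ℕ) [Fact p.Prime] (K : Type) [Field K] [Fintype K] [DecidableEq K]
    [Algebra (ZMod p) K] :
    ∃ (R : Type) (_ : CommRing R) (_ : IsDomain R) (_ : CharZero R) (ζ : R) (ρ : R →+* K)
      (ω : K →* R), (∀ x, ρ (ω x) = x) ∧ ρ ζ = 1 ∧ ∑ i ∈ Finset.range p, ζ ^ i = 0 := by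
  have hp : p.Prime := Fact.out
  have : CharP K p := charP_of_injective_algebraMap (algebraMap (ZMod p) K).injective p
  have : PerfectRing K p := inferInstance
  have : CharZero (WittVector p K) := charZero_witt p K
  set f := cyclotomic p (WittVector p K) with hf
  have hirr : Irreducible f := irreducible_cyclotomic_witt p K
  have hprime : Prime f := hirr.prime
  have hdeg : f.degree ≠ 0 := by
    rw [degree_eq_natDegree hprime.ne_zero, hf, natDegree_cyclotomic, Nat.totient_prime hp]
    have := hp.two_le
    simp only [ne_eq, Nat.cast_eq_zero]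
    omega
  have : IsDomain (AdjoinRoot f) := AdjoinRoot.isDomain_of_prime hprime
  have hinj : Function.Injective (AdjoinRoot.of f) :=
    AdjoinRoot.of.injective_of_degree_ne_zero hdeg
  have : CharZero (AdjoinRoot f) := by
    refine ⟨fun a b hab => ?_⟩
    have h1 : AdjoinRoot.of f (a : WittVector p K) = AdjoinRoot.of f (b : WittVector p K) := by
      simpa using hab
    exact Nat.cast_injective (hinj h1)
  have hev : f.eval₂ (WittVector.constantCoeff (p := p) (R := K)) 1 = 0 := by
    rw [hf, eval₂_eq_eval_map, map_cyclotomic, eval_one_cyclotomic_prime]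
    exact CharP.cast_eq_zero K p
  refine ⟨AdjoinRoot f, inferInstance, inferInstance, inferInstance, AdjoinRoot.root f,
    AdjoinRoot.lift (WittVector.constantCoeff (p := p) (R := K)) 1 hev,
    ((AdjoinRoot.of f : WittVector p K →+* AdjoinRoot f) : WittVector p K →* AdjoinRoot f).comp
      (WittVector.teichmuller p), ?_, ?_, ?_⟩
  · intro x
    simp only [MonoidHom.coe_comp, Function.comp_apply, MonoidHom.coe_coe, AdjoinRoot.lift_of]
    exact WittVector.teichmuller_coeff_zero p x
  · exact AdjoinRoot.lift_root hev
  · have h1 : (f.map (AdjoinRoot.of f)).eval (AdjoinRoot.root f) = 0 := by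
      rw [← eval₂_eq_eval_map]
      exact AdjoinRoot.eval₂_root f
    have h2 : f.map (AdjoinRoot.of f) = cyclotomic p (AdjoinRoot f) :=
      map_cyclotomic p (AdjoinRoot.of f)
    rw [h2, cyclotomic_prime (AdjoinRoot f) p] at h1
    simpa only [eval_finsetSum, eval_pow, eval_X] using h1

end Pool.Agent.helper75.MS
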